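import Pool.Agent.Q124.UI.DD3
import Pool.Agent.Q256.UG.Stm

set_option autoImplicit false

/-!
# Project UG (MP_821da1_nt), jobs GD2 and GD3

The lemmas `DD1`, `DD2`, `DD3` of project UI for `H = 1` are applied to the rescaled polynomial
`a' k j = a k j * K ^ (2 (k - j) + j) / K ^ (2 d - 1)`, `x = K² x'`, `u = K u'`.  The proofs of `DD2` and `DD3`
are those of `Pool.Agent.Q124.UI` with a weaker hypothesis on the nodes (`dd2g`, `dd3g`).
-/

namespace Pool.Agent.Q150.UG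

open Finset Pool.Agent.Q256.UI Pool.Agent.Q124.UI

theorem fdg {A H T C w x y u v : ℝ} (hA : 1 ≤ A) (hH : 1 ≤ H) (hT : 0 < T) (hC : 1 ≤ C)
    (hw : w ≤ A * H ^ 2 / T ^ 2 * |x - y|)
    (h : |u - v| ≤ C * (H ^ 2 / T ^ 2 * |x - y| + w)) :
    |u / (A * H) - v / (A * H)| ≤ (2 * C * H / T ^ 2) * |x - y| := by
  have hAH0 : 0 < A * H := by nlinarith
  have e : u / (A * H) - v / (A * H) = (u - v) / (A * H) := by rw [sub_div]
  rw [e, abs_div, abs_of_pos hAH0, div_le_iff₀ hAH0]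
  refine h.trans ?_
  have h1 : H ^ 2 / T ^ 2 * |x - y| ≤ A * (H ^ 2 / T ^ 2 * |x - y|) := by
    have : 0 ≤ H ^ 2 / T ^ 2 * |x - y| := by positivity
    nlinarith
  have h2 : w ≤ A * (H ^ 2 / T ^ 2 * |x - y|) := by
    refine hw.trans (le_of_eq ?_); ring
  calc C * (H ^ 2 / T ^ 2 * |x - y| + w) ≤
      C * (A * (H ^ 2 / T ^ 2 * |x - y|) + A * (H ^ 2 / T ^ 2 * |x - y|)) :=
        mul_le_mul_of_nonneg_left (by linarith) (by linarith)
    _ = _ := by ring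

theorem dd2g (h1 : S_DD1) : ∀ (d : ℕ) (A : ℝ), 5 ≤ d → 1 ≤ A → ∃ C : ℝ, 1 ≤ C ∧
    ∀ (H T W : ℝ) (a : ℕ → ℕ → ℝ),
    1 ≤ H → C * H ≤ T → Bd d A H a → 0 ≤ W → ∀ x y z u v w : ℝ,
    T ≤ x → x ≤ 2 * T → T ≤ y → y ≤ 2 * T → T ≤ z → z ≤ 2 * T →
    0 < |x - y| → 0 < |y - z| → 0 < |z - x| →
    W / T ^ (d - 1) ≤ A * H ^ 2 / T ^ 2 * |x - y| → W / T ^ (d - 1) ≤ A * H ^ 2 / T ^ 2 * |y - z| →
    W / T ^ (d - 1) ≤ A * H ^ 2 / T ^ 2 * |z - x| →
    |u| ≤ A * H → |v| ≤ A * H → |w| ≤ A * H →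
    |Q d a x u| ≤ W → |Q d a y v| ≤ W → |Q d a z w| ≤ W →
    |u * (y - z) + v * (z - x) + w * (x - y)| ≤
      C * (H ^ 2 / T ^ 3 * (|x - y| * |y - z| * |z - x|) +
        W / T ^ (d - 1) * (|x - y| + |y - z| + |z - x|)) := by
  intro d A hd hA
  obtain ⟨C, hC, h⟩ := h1 d A hd hA
  have hd0 : (5 : ℝ) ≤ d := by exact_mod_cast hd
  obtain ⟨n, hn⟩ : ∃ n : ℝ, n = ((d : ℝ) + 1) ^ 2 := ⟨_, rfl⟩
  have hn1 : 1 ≤ n := by rw [hn]; nlinarith
  obtain ⟨G, hG⟩ : ∃ G : ℝ, G = d ^ 2 * (4 * C ^ 2 + 2 * C + 2) := ⟨_, rfl⟩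
  have hG0 : 0 ≤ G := by rw [hG]; positivity
  have hnd : 0 ≤ n * d * A ^ 3 := by positivity
  have hnG : 0 ≤ n * A ^ 4 * G := by positivity
  refine ⟨C + A + 2 * (n * d * A ^ 3) + 2 * A + 2 * (n * A ^ 4 * G), by linarith, ?_⟩
  intro H T W a hH hT hB hW x y z u v w hx hx2 hy hy2 hz hz2 hxy hyz hzx w1 w2 w3 hu hv hw hQ1 hQ2 hQ3
  have hH0 : 0 < H := by linarith
  have hCH : C * H ≤ T := by
    refine le_trans ?_ hT
    exact mul_le_mul_of_nonneg_right (by linarith) hH0.le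
  have hAT : A * H ≤ T := by
    refine le_trans ?_ hT
    exact mul_le_mul_of_nonneg_right (by linarith) hH0.le
  have hnT : 2 * (n * d * A ^ 3) * H ≤ T := by
    refine le_trans ?_ hT
    exact mul_le_mul_of_nonneg_right (by linarith) hH0.le
  have hHT : H ≤ T := by nlinarith
  have hT0 : 0 < T := by linarith
  have hAH0 : 0 < A * H := by positivity
  have f1 := fdg hA hH hT0 hC w1 (h H T W a hH hCH hB hW x y u v hx hx2 hy hy2 hu hv hQ1 hQ2)
  have f2 := fdg hA hH hT0 hC w2 (h H T W a hH hCH hB hW y z v w hy hy2 hz hz2 hv hw hQ2 hQ3)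
  have f3 := fdg hA hH hT0 hC w3 (h H T W a hH hCH hB hW z x w u hz hz2 hx hx2 hw hu hQ3 hQ1)
  obtain ⟨V, hV⟩ : ∃ V : ℝ, V = |x - y| * |y - z| * |z - x| := ⟨_, rfl⟩
  have hV0 : 0 < V := by rw [hV]; positivity
  have eN : N x y z (u / (A * H)) (v / (A * H)) (w / (A * H)) = N x y z u v w / (A * H) := by
    unfold N; field_simp
  have hDB : DB x y z (2 * C * H / T ^ 2) (|N x y z u v w| / (A * H) / V)
      (u / (A * H)) (v / (A * H)) (w / (A * H)) := by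
    refine ⟨scl_le hAH0 hu, scl_le hAH0 hv, scl_le hAH0 hw, f1, f2, f3, ?_⟩
    rw [eN, abs_div, abs_of_pos hAH0, ← hV, div_mul_cancel₀ _ hV0.ne']
  have hS := S_N hA hH hAT hB (le_refl 1) hx hy hz (by positivity) (by positivity) hDB
  rw [← hn, ← hV] at hS
  have hE := E_le (d := d) hC hH hHT
  rw [← hG] at hE
  have e1 := Q_eq (by omega : 2 ≤ d) hB.zero (by linarith : x ≠ 0) u
  have e2 := Q_eq (by omega : 2 ≤ d) hB.zero (by linarith : y ≠ 0) v
  have e3 := Q_eq (by omega : 2 ≤ d) hB.zero (by linarith : z ≠ 0) w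
  have hNe := N_le (x := x) (y := y) (z := z) (eps_le hT0 hx hW hQ1) (eps_le hT0 hy hW hQ2)
    (eps_le hT0 hz hW hQ3)
  have h2 : a d 1 * N x y z u v w = N x y z (Q d a x u / x ^ (d - 1)) (Q d a y v / y ^ (d - 1))
      (Q d a z w / z ^ (d - 1)) - N x y z (S d a 1 x u) (S d a 1 y v) (S d a 1 z w) := by
    rw [e1, e2, e3]; unfold N; ring
  have h3 : |a d 1| * |N x y z u v w| ≤ W / T ^ (d - 1) * (|x - y| + |y - z| + |z - x|) +
      n * (A ^ 2 * H * (A * H / T) ^ 1 *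
      ((d * (|N x y z u v w| / (A * H) / V) + d ^ 2 * (2 * C * H / T ^ 2) ^ 2 +
        d ^ 2 * ((2 * C * H / T ^ 2) / T) + 2 * d ^ 2 / T ^ 2) * V)) := by
    rw [← abs_mul, h2]
    exact (abs_sub _ _).trans (add_le_add hNe hS)
  have e4 : N x y z u v w = u * (y - z) + v * (z - x) + w * (x - y) := rfl
  rw [← e4, ← hV]
  obtain ⟨M, hM⟩ : ∃ M : ℝ, M = |N x y z u v w| := ⟨_, rfl⟩
  have hM0 : 0 ≤ M := by rw [hM]; positivity
  rw [← hM] at h3 ⊢
  have hs0 : 0 ≤ W / T ^ (d - 1) * (|x - y| + |y - z| + |z - x|) := by positivity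
  generalize W / T ^ (d - 1) * (|x - y| + |y - z| + |z - x|) = s at h3 hs0 ⊢
  have h4 : M ≤ A * (|a d 1| * M) := by
    rw [← mul_assoc]
    have := hB.one
    nlinarith
  have h5 : n * (A ^ 2 * H * (A * H / T) ^ 1 *
      ((d * (M / (A * H) / V) + d ^ 2 * (2 * C * H / T ^ 2) ^ 2 +
        d ^ 2 * ((2 * C * H / T ^ 2) / T) + 2 * d ^ 2 / T ^ 2) * V)) ≤
      n * (A ^ 2 * H * (A * H / T) ^ 1 * ((d * (M / (A * H) / V) + G / T ^ 2) * V)) := by
    have : d * (M / (A * H) / V) + d ^ 2 * (2 * C * H / T ^ 2) ^ 2 +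
        d ^ 2 * ((2 * C * H / T ^ 2) / T) + 2 * d ^ 2 / T ^ 2 ≤
        d * (M / (A * H) / V) + G / T ^ 2 := by linarith
    exact mul_le_mul_of_nonneg_left (mul_le_mul_of_nonneg_left
      (mul_le_mul_of_nonneg_right this hV0.le) (by positivity)) (by linarith)
  have e5 : n * (A ^ 2 * H * (A * H / T) ^ 1 * ((d * (M / (A * H) / V) + G / T ^ 2) * V)) =
      n * d * A ^ 2 * (H / T) * M + n * A ^ 3 * G * (H ^ 2 / T ^ 3 * V) := by
    field_simp
  rw [e5] at h5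
  have h6 : A * (n * d * A ^ 2 * (H / T) * M) ≤ 1 / 2 * M := by
    have e6 : A * (n * d * A ^ 2 * (H / T) * M) = ((n * d * A ^ 3) * H / T) * M := by ring
    rw [e6]
    apply mul_le_mul_of_nonneg_right _ hM0
    rw [div_le_iff₀ hT0]
    linarith
  have h7 : M ≤ A * s + A * (n * d * A ^ 2 * (H / T) * M) +
      A * (n * A ^ 3 * G * (H ^ 2 / T ^ 3 * V)) := by
    calc M ≤ A * (|a d 1| * M) := h4
      _ ≤ A * (s + (n * d * A ^ 2 * (H / T) * M + n * A ^ 3 * G * (H ^ 2 / T ^ 3 * V))) :=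
        mul_le_mul_of_nonneg_left (h3.trans (by linarith)) (by linarith)
      _ = _ := by ring
  have hr0 : 0 ≤ H ^ 2 / T ^ 3 * V := by positivity
  generalize H ^ 2 / T ^ 3 * V = r at h7 hr0 ⊢
  have e8 : A * (n * A ^ 3 * G * r) = n * A ^ 4 * G * r := by ring
  rw [e8] at h7
  have h8 : M ≤ 2 * A * s + 2 * (n * A ^ 4 * G * r) := by linarith
  have p1 : 0 ≤ n * d * A ^ 3 * r := by positivity
  have p2 : 0 ≤ n * d * A ^ 3 * s := by positivity
  have p3 : 0 ≤ n * A ^ 4 * G * s := by positivity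
  have p4 : 0 ≤ C * r := by positivity
  have p5 : 0 ≤ C * s := by positivity
  have p6 : 0 ≤ A * r := by positivity
  have p7 : 0 ≤ A * s := by positivity
  have e9 : (C + A + 2 * (n * d * A ^ 3) + 2 * A + 2 * (n * A ^ 4 * G)) * (r + s) =
      C * r + C * s + 3 * (A * r) + 3 * (A * s) + 2 * (n * d * A ^ 3 * r) +
      2 * (n * d * A ^ 3 * s) + 2 * (n * A ^ 4 * G * r) + 2 * (n * A ^ 4 * G * s) := by ring
  rw [e9]
  linarith

theorem qq_bdg {d : ℕ} (hd : 5 ≤ d) {A H T W C b : ℝ} {a : ℕ → ℕ → ℝ} (hA : 1 ≤ A) (hH : 1 ≤ H)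
    (hC : 1 ≤ C) (hT : A * H ≤ T) (hB : Bd d A H a) (hW : 0 ≤ W) (hb0 : 0 < b)
    {x y z u v w : ℝ} (hx : T ≤ x) (hx2 : x ≤ 2 * T) (hy : T ≤ y) (hy2 : y ≤ 2 * T) (hz : T ≤ z)
    (hz2 : z ≤ 2 * T)
    (hxy : b ≤ |x - y|) (hyz : b ≤ |y - z|) (hzx : b ≤ |z - x|)
    (hu : |u| ≤ A * H) (hv : |v| ≤ A * H) (hw : |w| ≤ A * H)
    (hQ1 : |Q d a x u| ≤ W) (hQ2 : |Q d a y v| ≤ W) (hQ3 : |Q d a z w| ≤ W)
    (f1 : |u / (A * H) - v / (A * H)| ≤ (2 * C * H / T ^ 2) * |x - y|)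
    (f2 : |v / (A * H) - w / (A * H)| ≤ (2 * C * H / T ^ 2) * |y - z|)
    (f3 : |w / (A * H) - u / (A * H)| ≤ (2 * C * H / T ^ 2) * |z - x|)
    (h0 : N x y z u v w = 0) :
    |qq d a u| ≤ 24 * (W / T ^ (d - 1) * T ^ 3 / b ^ 2) +
      8 * (((d : ℝ) + 1) ^ 2 * A ^ 4 * (d ^ 2 * (4 * C ^ 2 + 2 * C + 2)) + 6 * A ^ 3 * C +
        4 * A ^ 3 * C ^ 2) * (H ^ 3 / T) := by
  have hAH : 1 ≤ A * H := by nlinarith
  have hAH0 : 0 < A * H := by linarith
  have hT0 : 0 < T := by linarith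
  have hHT : H ≤ T := by nlinarith
  have hx0 : 0 < x := by linarith
  have hy0 : 0 < y := by linarith
  have hz0 : 0 < z := by linarith
  obtain ⟨V, hV⟩ : ∃ V : ℝ, V = |x - y| * |y - z| * |z - x| := ⟨_, rfl⟩
  have pxy : 0 < |x - y| := by linarith
  have pyz : 0 < |y - z| := by linarith
  have pzx : 0 < |z - x| := by linarith
  have hV0 : 0 < V := by rw [hV]; positivity
  have eN : N x y z (u / (A * H)) (v / (A * H)) (w / (A * H)) = N x y z u v w / (A * H) := by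
    unfold N; field_simp
  have hDB : DB x y z (2 * C * H / T ^ 2) 0
      (u / (A * H)) (v / (A * H)) (w / (A * H)) := by
    refine ⟨scl_le hAH0 hu, scl_le hAH0 hv, scl_le hAH0 hw, f1, f2, f3, ?_⟩
    rw [eN, h0, zero_div, abs_zero, zero_mul]
  have hS := S_N hA hH hT hB (by norm_num : 1 ≤ 2) hx hy hz (by positivity) (le_refl 0) hDB
  rw [← hV] at hS
  have hE := E_le (d := d) hC hH hHT
  obtain ⟨G, hG⟩ : ∃ G : ℝ, G = d ^ 2 * (4 * C ^ 2 + 2 * C + 2) := ⟨_, rfl⟩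
  obtain ⟨n, hn⟩ : ∃ n : ℝ, n = ((d : ℝ) + 1) ^ 2 := ⟨_, rfl⟩
  have hG0 : 0 ≤ G := by rw [hG]; positivity
  have hn0 : 0 ≤ n := by rw [hn]; positivity
  rw [← hG] at hE ⊢
  rw [← hn] at hS ⊢
  have hS2 : |N x y z (S d a 2 x u) (S d a 2 y v) (S d a 2 z w)| ≤
      n * A ^ 4 * G * (H ^ 3 / T ^ 4) * V := by
    refine hS.trans ?_
    have : d * 0 + d ^ 2 * (2 * C * H / T ^ 2) ^ 2 +
        d ^ 2 * ((2 * C * H / T ^ 2) / T) + 2 * d ^ 2 / T ^ 2 ≤ G / T ^ 2 := by linarith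
    calc n * (A ^ 2 * H * (A * H / T) ^ 2 * ((d * 0 + d ^ 2 * (2 * C * H / T ^ 2) ^ 2 +
        d ^ 2 * ((2 * C * H / T ^ 2) / T) + 2 * d ^ 2 / T ^ 2) * V)) ≤
        n * (A ^ 2 * H * (A * H / T) ^ 2 * (G / T ^ 2 * V)) :=
          mul_le_mul_of_nonneg_left (mul_le_mul_of_nonneg_left
            (mul_le_mul_of_nonneg_right this hV0.le) (by positivity)) hn0
      _ = _ := by field_simp
  have e1 := Q_eq (by omega : 2 ≤ d) hB.zero hx0.ne' u
  have e2 := Q_eq (by omega : 2 ≤ d) hB.zero hy0.ne' v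
  have e3 := Q_eq (by omega : 2 ≤ d) hB.zero hz0.ne' w
  rw [S_one (by omega : 3 ≤ d)] at e1 e2 e3
  have hNe := N_le (x := x) (y := y) (z := z) (eps_le hT0 hx hW hQ1) (eps_le hT0 hy hW hQ2)
    (eps_le hT0 hz hW hQ3)
  have h2 : N x y z (qq d a u * (1 / x)) (qq d a v * (1 / y)) (qq d a w * (1 / z)) =
      N x y z (Q d a x u / x ^ (d - 1)) (Q d a y v / y ^ (d - 1))
      (Q d a z w / z ^ (d - 1)) - N x y z (S d a 2 x u) (S d a 2 y v) (S d a 2 z w) := by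
    have h3 : a d 1 * N x y z u v w = 0 := by rw [h0, mul_zero]
    rw [e1, e2, e3]
    unfold qq
    unfold N at h3 ⊢
    linear_combination - h3
  rw [N_mul] at h2
  have h3 : N x y z (1 / x) (1 / y) (1 / z) = - ((x - y) * (y - z) * (z - x) / (x * y * z)) := by
    unfold N; field_simp; ring
  have d1 : |u - v| ≤ 2 * A * C * (H ^ 2 / T ^ 2) * |x - y| := by
    rw [← sub_div, abs_div, abs_of_pos hAH0, div_le_iff₀ hAH0] at f1
    refine f1.trans (le_of_eq ?_); ring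
  have d2 : |v - w| ≤ 2 * A * C * (H ^ 2 / T ^ 2) * |y - z| := by
    rw [← sub_div, abs_div, abs_of_pos hAH0, div_le_iff₀ hAH0] at f2
    refine f2.trans (le_of_eq ?_); ring
  have t1 : |(qq d a u - qq d a v) * (1 / y - 1 / z) * (x - z)| ≤
      6 * A ^ 3 * C * (H ^ 3 / T ^ 4) * V := by
    rw [abs_mul, abs_mul, abs_sub_comm x z]
    have s1 : |qq d a u - qq d a v| ≤ 6 * A ^ 3 * C * (H ^ 3 / T ^ 2) * |x - y| := by
      have hk : |u + v| ≤ (2 * A) * H := (abs_add_le u v).trans (by linarith)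
      refine (qq_sub (by omega) hA hH hB hk (by linarith)).trans ?_
      calc A * (2 * A + 1) * H * |u - v| ≤ (3 * A ^ 2 * H) * (2 * A * C * (H ^ 2 / T ^ 2) * |x - y|) := by
            apply mul_le_mul _ d1 (abs_nonneg _) (by positivity)
            apply mul_le_mul_of_nonneg_right _ (by linarith)
            nlinarith
        _ = _ := by ring
    have s2 : |1 / y - 1 / z| ≤ 1 / T ^ 2 * |y - z| := by
      have e5 : 1 / y - 1 / z = (z - y) / (y * z) := by field_simp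
      rw [e5, abs_div, abs_of_pos (mul_pos hy0 hz0), abs_sub_comm, one_div_mul_eq_div]
      apply div_le_div_of_nonneg_left pyz.le (by positivity)
      rw [pow_two]
      exact mul_le_mul hy hz hT0.le hy0.le
    calc |qq d a u - qq d a v| * |1 / y - 1 / z| * |z - x| ≤
        (6 * A ^ 3 * C * (H ^ 3 / T ^ 2) * |x - y|) * (1 / T ^ 2 * |y - z|) * |z - x| := by
          apply mul_le_mul_of_nonneg_right _ pzx.le
          exact mul_le_mul s1 s2 (abs_nonneg _) (by positivity)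
      _ = _ := by rw [hV]; field_simp
  have t2 : |N x y z (qq d a u) (qq d a v) (qq d a w) * (1 / z)| ≤
      4 * A ^ 3 * C ^ 2 * (H ^ 3 / T ^ 4) * V := by
    have s1 : N x y z (qq d a u) (qq d a v) (qq d a w) = a d 2 * ((u - v) * (v - w) * (x - z)) := by
      unfold qq
      unfold N at h0 ⊢
      linear_combination (a d 2 * (u + w) + a (d - 1) 1) * h0
    have s2 : |N x y z (qq d a u) (qq d a v) (qq d a w)| ≤ 4 * A ^ 3 * C ^ 2 * (H ^ 4 / T ^ 4) * V := by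
      rw [s1, abs_mul, abs_mul, abs_mul, abs_sub_comm x z]
      calc |a d 2| * (|u - v| * |v - w| * |z - x|) ≤
          A * ((2 * A * C * (H ^ 2 / T ^ 2) * |x - y|) * (2 * A * C * (H ^ 2 / T ^ 2) * |y - z|) *
            |z - x|) := by
            apply mul_le_mul (hB.top 2 (by omega)) _ (by positivity) (by linarith)
            apply mul_le_mul_of_nonneg_right _ pzx.le
            exact mul_le_mul d1 d2 (abs_nonneg _) (by positivity)
        _ = _ := by rw [hV]; ring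
    rw [abs_mul]
    have s3 : |1 / z| ≤ 1 / T := by
      rw [abs_of_pos (by positivity)]
      exact one_div_le_one_div_of_le hT0 hz
    calc |N x y z (qq d a u) (qq d a v) (qq d a w)| * |1 / z| ≤
        (4 * A ^ 3 * C ^ 2 * (H ^ 4 / T ^ 4) * V) * (1 / T) :=
          mul_le_mul s2 s3 (abs_nonneg _) (by positivity)
      _ = (4 * A ^ 3 * C ^ 2 * (H ^ 3 / T ^ 4) * V) * (H / T) := by ring
      _ ≤ (4 * A ^ 3 * C ^ 2 * (H ^ 3 / T ^ 4) * V) * 1 := by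
          apply mul_le_mul_of_nonneg_left _ (by positivity)
          rw [div_le_one hT0]; exact hHT
      _ = _ := mul_one _
  have t3 : W / T ^ (d - 1) * (|x - y| + |y - z| + |z - x|) ≤ 3 * (W / T ^ (d - 1) / b ^ 2) * V := by
    have w0 : 0 ≤ W / T ^ (d - 1) := by positivity
    have r1 : |x - y| ≤ V / b ^ 2 := by
      rw [le_div_iff₀ (by positivity), hV]
      exact prod3 hb0.le hyz hzx pxy.le
    have r2 : |y - z| ≤ V / b ^ 2 := by
      rw [le_div_iff₀ (by positivity), hV]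
      have := prod3 hb0.le hxy hzx pyz.le
      linarith
    have r3 : |z - x| ≤ V / b ^ 2 := by
      rw [le_div_iff₀ (by positivity), hV]
      have := prod3 hb0.le hxy hyz pzx.le
      linarith
    calc W / T ^ (d - 1) * (|x - y| + |y - z| + |z - x|) ≤
        W / T ^ (d - 1) * (V / b ^ 2 + V / b ^ 2 + V / b ^ 2) :=
          mul_le_mul_of_nonneg_left (by linarith) w0
      _ = _ := by ring
  have t4 : |qq d a u * N x y z (1 / x) (1 / y) (1 / z)| ≤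
      3 * (W / T ^ (d - 1) / b ^ 2) * V + n * A ^ 4 * G * (H ^ 3 / T ^ 4) * V +
      6 * A ^ 3 * C * (H ^ 3 / T ^ 4) * V + 4 * A ^ 3 * C ^ 2 * (H ^ 3 / T ^ 4) * V := by
    have e6 : qq d a u * N x y z (1 / x) (1 / y) (1 / z) =
        N x y z (Q d a x u / x ^ (d - 1)) (Q d a y v / y ^ (d - 1))
          (Q d a z w / z ^ (d - 1)) - N x y z (S d a 2 x u) (S d a 2 y v) (S d a 2 z w) -
        (qq d a u - qq d a v) * (1 / y - 1 / z) * (x - z) -
        N x y z (qq d a u) (qq d a v) (qq d a w) * (1 / z) := by linear_combination h2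
    rw [e6]
    refine (abs_sub _ _).trans ?_
    refine add_le_add ((abs_sub _ _).trans ?_) t2
    refine add_le_add ((abs_sub _ _).trans ?_) t1
    exact add_le_add (hNe.trans t3) hS2
  have t5 : |qq d a u| * (V / (8 * T ^ 3)) ≤ |qq d a u * N x y z (1 / x) (1 / y) (1 / z)| := by
    rw [abs_mul, h3, abs_neg, abs_div, abs_mul, abs_mul, ← hV,
      abs_of_pos (by positivity : 0 < x * y * z)]
    apply mul_le_mul_of_nonneg_left _ (abs_nonneg _)
    apply div_le_div_of_nonneg_left hV0.le (by positivity)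
    calc x * y * z ≤ (2 * T) * (2 * T) * (2 * T) := by gcongr
      _ = 8 * T ^ 3 := by ring
  have t6 := t5.trans t4
  have t7 : |qq d a u| * (V / (8 * T ^ 3)) ≤ (24 * (W / T ^ (d - 1) * T ^ 3 / b ^ 2) +
      8 * (n * A ^ 4 * G + 6 * A ^ 3 * C + 4 * A ^ 3 * C ^ 2) * (H ^ 3 / T)) * (V / (8 * T ^ 3)) := by
    refine t6.trans (le_of_eq ?_)
    generalize W / T ^ (d - 1) = ω
    field_simp
    ring
  exact le_of_mul_le_mul_right t7 (by positivity)

theorem dd3g (h1 : S_DD1) : ∀ (d : ℕ) (A : ℝ), 5 ≤ d → 1 ≤ A → ∃ C : ℝ, 1 ≤ C ∧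
    ∀ (H T W b : ℝ) (a : ℕ → ℕ → ℝ),
    1 ≤ H → C * H ≤ T → Bd d A H a → 0 ≤ W → W ≤ A * H * T ^ (d - 3) → 0 < b →
    W / T ^ (d - 1) ≤ A * H ^ 2 / T ^ 2 * b →
    ∀ x y z u v w : ℝ,
    T ≤ x → x ≤ 2 * T → T ≤ y → y ≤ 2 * T → T ≤ z → z ≤ 2 * T →
    b ≤ |x - y| → b ≤ |y - z| → b ≤ |z - x| →
    |u| ≤ A * H → |v| ≤ A * H → |w| ≤ A * H →
    |Q d a x u| ≤ W → |Q d a y v| ≤ W → |Q d a z w| ≤ W →
    u * (y - z) + v * (z - x) + w * (x - y) = 0 →
    |rho d a| ≤ C * (H ^ 3 / T + W * T ^ 3 / (T ^ (d - 1) * b ^ 2)) := by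
  intro d A hd hA
  obtain ⟨C, hC, h⟩ := h1 d A hd hA
  obtain ⟨K, hK⟩ : ∃ K : ℝ, K = 8 * (((d : ℝ) + 1) ^ 2 * A ^ 4 * (d ^ 2 * (4 * C ^ 2 + 2 * C + 2)) +
    6 * A ^ 3 * C + 4 * A ^ 3 * C ^ 2) := ⟨_, rfl⟩
  have hK0 : 0 ≤ K := by rw [hK]; positivity
  obtain ⟨L, hL⟩ : ∃ L : ℝ, L = A * ((A + A ^ 2) + 1) * (A ^ 2 + ((d : ℝ) + 1) ^ 2 * A ^ 4) := ⟨_, rfl⟩
  have hL0 : 0 ≤ L := by rw [hL]; positivity
  refine ⟨C + A + 24 + K + L, by linarith, ?_⟩
  intro H T W b a hH hT hB hW hW2 hb hwb x y z u v w hx hx2 hy hy2 hz hz2 hxy hyz hzx hu hv hw hQ1 hQ2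
    hQ3 hdet
  have hH0 : 0 < H := by linarith
  have hCH : C * H ≤ T := by
    refine le_trans ?_ hT
    exact mul_le_mul_of_nonneg_right (by linarith) hH0.le
  have hAT : A * H ≤ T := by
    refine le_trans ?_ hT
    exact mul_le_mul_of_nonneg_right (by linarith) hH0.le
  have hAH : 1 ≤ A * H := by nlinarith
  have hT0 : 0 < T := by linarith
  have hwm : ∀ {t : ℝ}, b ≤ t → W / T ^ (d - 1) ≤ A * H ^ 2 / T ^ 2 * t := fun ht =>
    hwb.trans (mul_le_mul_of_nonneg_left ht (by positivity))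
  have f1 := fdg hA hH hT0 hC (hwm hxy)
    (h H T W a hH hCH hB hW x y u v hx hx2 hy hy2 hu hv hQ1 hQ2)
  have f2 := fdg hA hH hT0 hC (hwm hyz)
    (h H T W a hH hCH hB hW y z v w hy hy2 hz hz2 hv hw hQ2 hQ3)
  have f3 := fdg hA hH hT0 hC (hwm hzx)
    (h H T W a hH hCH hB hW z x w u hz hz2 hx hx2 hw hu hQ3 hQ1)
  have hq := qq_bdg hd hA hH hC hAT hB hW hb hx hx2 hy hy2 hz hz2 hxy hyz hzx hu hv hw hQ1 hQ2 hQ3
    f1 f2 f3 hdet
  rw [← hK] at hq
  have hk := u_kap hd hA hH hAT hB hW hW2 hx hu hQ1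
  have hk2 := kap_le hd hA hB
  have hs : |kap d a + u| ≤ (A + A ^ 2) * H := (abs_add_le _ _).trans (by linarith)
  have hr := qq_sub (by omega : 3 ≤ d) hA hH hB hs (by positivity)
  have hrho : rho d a = qq d a (kap d a) := rfl
  rw [hrho]
  have e1 : |qq d a (kap d a)| ≤ |qq d a (kap d a) - qq d a u| + |qq d a u| := by
    have := abs_add_le (qq d a (kap d a) - qq d a u) (qq d a u)
    rwa [sub_add_cancel] at this
  have e2 : A * ((A + A ^ 2) + 1) * H * |kap d a - u| ≤ L * (H ^ 3 / T) := by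
    rw [abs_sub_comm]
    calc A * ((A + A ^ 2) + 1) * H * |u - kap d a| ≤ A * ((A + A ^ 2) + 1) * H *
        ((A ^ 2 + ((d : ℝ) + 1) ^ 2 * A ^ 4) * (H ^ 2 / T)) :=
          mul_le_mul_of_nonneg_left hk (by positivity)
      _ = _ := by rw [hL]; ring
  have e3 : W / T ^ (d - 1) * T ^ 3 / b ^ 2 = W * T ^ 3 / (T ^ (d - 1) * b ^ 2) := by
    have : 0 < T ^ (d - 1) := by positivity
    generalize T ^ (d - 1) = τ at this
    field_simp
  rw [e3] at hq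
  have p1 : 0 ≤ W * T ^ 3 / (T ^ (d - 1) * b ^ 2) := by positivity
  have p2 : 0 ≤ H ^ 3 / T := by positivity
  generalize W * T ^ 3 / (T ^ (d - 1) * b ^ 2) = s at hq p1 ⊢
  generalize H ^ 3 / T = r at hq e2 p2 ⊢
  have q1 : 0 ≤ (C + A + K + L) * s := by positivity
  have q2 : 0 ≤ (C + A + 24) * r := by positivity
  calc |qq d a (kap d a)| ≤ L * r + (24 * s + K * r) := e1.trans (add_le_add (hr.trans e2) hq)
    _ ≤ (C + A + 24 + K + L) * (r + s) := by linarith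

end Pool.Agent.Q150.UG
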